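import Pool.Agent.helper45.TC.Spec

set_option autoImplicit false

/-! Row CLS of project TC (MP_405bd9_al). -/

open Polynomial Finset Pool.Agent.helper27.PC

namespace Pool.Agent.TC

theorem CLS_mem {b : ℕ} {R : St} {l : Lab} (hl : l ∈ addable b R) (x : Lab) :
    x ∈ R ↔ x = l ∨ (x ≠ up b l ∧ x ∈ move b R l) := by
  rw [mem_ad] at hl
  rw [mem_mv]
  constructor
  · intro h
    by_cases h1 : x = l
    · exact Or.inl h1
    · refine Or.inr ⟨?_, Or.inr ⟨h1, h⟩⟩
      rintro rfl
      exact hl.2 h
  · rintro (h | ⟨h1, h2 | h2⟩)
    · rw [h]
      exact hl.1
    · exact absurd h2 h1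
    · exact h2.2

/-- the bead moved by `t` from `(c, g)` -/
theorem CLS_R {R : St} {n t : ℕ} {c : Bool} {g : ℕ}
    (h : ∀ (d : Bool) (x : ℕ), ((d, x) : Lab) ∈ R ↔ (d = c ∧ x = g + t) ∨ (¬ (d = c ∧ x = g) ∧ x < n)) :
    R = move t (vac n) (c, g) := by
  ext ⟨d, x⟩
  rw [h, mem_mv, mem_vac']
  unfold up
  simp only [Prod.mk.injEq, ne_eq]

theorem CLS (hSUP : SUP_stmt) : CLS_stmt := by
  intro s a b hs hsa hab hbas R l hl hy
  have hR := CLS_mem hl
  have hup : up b l ∈ move b R l := by
    rw [mem_mv]
    exact Or.inl rfl
  have hnl : l ∉ move b R l := by
    rw [mem_mv]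
    rintro (h | h)
    · have h1 := congrArg Prod.snd h
      unfold up at h1
      simp only at h1
      omega
    · exact h.1 rfl
  obtain ⟨t, ht⟩ : ∃ t, t = a + s - b := ⟨_, rfl⟩
  rw [← ht]
  rcases hSUP s a b hs hsa (move b R l) hy with ⟨c, i, hi, hS⟩ | ⟨c, c', i, k, hi, hk, h1, h2, hS⟩
  · obtain ⟨g, hg, hS⟩ : ∃ g, (g = a + b + i ∨ g = b + i) ∧ move b R l = D3 s a b c g := by
      rcases hS with hS | hS
      · exact ⟨_, Or.inl rfl, hS⟩
      · exact ⟨_, Or.inr rfl, hS⟩
    rw [hS] at hR hup hnl
    obtain ⟨d, x⟩ := l
    rw [mem_D3] at hup hnl
    unfold up at hup hR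
    simp only [mem_D3, Prod.mk.injEq, ne_eq] at hup hnl hR
    by_cases hd : d = c
    · subst hd
      simp only [true_and] at hup hnl
      rcases hup with hup | hup
      · refine ⟨d, g - 2 * b, by omega, ?_, Or.inl ?_⟩
        · apply CLS_R
          intro e y
          rw [hR]
          simp only [Prod.mk.injEq]
          by_cases he : e = d
          · simp only [he, true_and]
            omega
          · simp only [he, false_and, not_false_eq_true, true_and, false_or]
        · simp only [Prod.mk.injEq, true_and]
          omega
      · refine ⟨d, i, by omega, ?_, Or.inr (Or.inr (Or.inr ?_))⟩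
        · apply CLS_R
          intro e y
          rw [hR]
          simp only [Prod.mk.injEq]
          by_cases he : e = d
          · simp only [he, true_and]
            omega
          · simp only [he, false_and, not_false_eq_true, true_and, false_or]
        · simp only [Prod.mk.injEq, true_and]
          omega
    · simp only [hd, false_and, not_false_eq_true, true_and, false_or, not_lt] at hup hnl
      omega
  · rw [hS] at hR hup hnl
    obtain ⟨d, x⟩ := l
    have hm : ∀ y : Lab, y ∈ move a (move s (vac (s + a + b)) (c, a + b + i)) (c', s + b + k) ↔
        y = (c', s + b + k + a) ∨ (y ≠ (c', s + b + k) ∧ (y = (c, a + b + i + s) ∨ (y ≠ (c, a + b + i) ∧ y.2 < s + a + b))) := by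
      intro y
      rw [mem_mv, mem_mv, mem_vac']
      rfl
    rw [hm] at hup hnl
    unfold up at hup hR
    simp only [hm, Prod.mk.injEq, ne_eq] at hup hnl hR h1 h2
    by_cases hc : c = c'
    · subst hc
      by_cases hd : d = c
      · subst hd
        simp only [true_and] at hup hnl h1 h2
        rcases hup with hup | ⟨h3, hup | hup⟩
        · refine ⟨d, i, by omega, ?_, Or.inr (Or.inr (Or.inl ?_))⟩
          · apply CLS_R
            intro e y
            rw [hR]
            simp only [Prod.mk.injEq]
            by_cases he : e = d
            · simp only [he, true_and]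
              omega
            · simp only [he, false_and, not_false_eq_true, true_and, false_or]
          · simp only [Prod.mk.injEq, true_and]
            omega
        · refine ⟨d, k, by omega, ?_, Or.inr (Or.inl ?_)⟩
          · apply CLS_R
            intro e y
            rw [hR]
            simp only [Prod.mk.injEq]
            by_cases he : e = d
            · simp only [he, true_and]
              omega
            · simp only [he, false_and, not_false_eq_true, true_and, false_or]
          · simp only [Prod.mk.injEq, true_and]
            omega
        · omega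
      · simp only [hd, false_and, not_false_eq_true, true_and, false_or, not_lt] at hup hnl
        omega
    · exfalso
      by_cases hd : d = c
      · have hd' : ¬ d = c' := fun h => hc (hd.symm.trans h)
        simp only [hd', false_and, not_false_eq_true, true_and, false_or] at hup hnl
        subst hd
        simp only [true_and] at hup hnl
        omega
      · by_cases hd' : d = c'
        · subst hd'
          simp only [hd, false_and, not_false_eq_true, true_and, false_or] at hup hnl
          omega
        · simp only [hd, hd', false_and, not_false_eq_true, true_and, false_or, not_lt] at hup hnl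
          omega

end Pool.Agent.TC
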